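import Mathlib
import Pool.Agent.X90.DC.Gen
import Pool.Agent.X90.DE.Cmp
import Pool.Agent.H340R2.LW

/-!
# MP_807c24_nt: the relations between the coefficients of the KZ associator, for almost all families of words

The coefficient of the word `A ^ (s_1 - 1) B ⋯ A ^ (s_r - 1) B` in `Φ_KZ` is `(-1) ^ r ζ(s_1, …, s_r)` (`s_1 ≥ 2`), and
`ℚ[M]` is generated over `ℚ[μ, 1/μ]` by the coefficients of these words. So `φ_KZ` is injective if and only if every
polynomial relation between `2 π i` and the multiple zeta values holds for `μ` and the coefficients of `Φ` (with the signs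
`(-1) ^ r`), for all `(μ, Φ)` in `M(k)` and all `k`. By a theorem of Furusho these coefficients have the stuffle product.

A point is a commutative `ℚ`-algebra `A` with an element `μ` and a function `Z` from the indices to `A`. Let `𝒜` be any
class of points whose `Z` have the stuffle product, for example the class of all associators, with
`Z(s_1, …, s_r) = (-1) ^ r (coefficient of the word of (s_1, …, s_r) in Φ)`. The following are equivalent.

(a) Every polynomial relation between `2 π i` and multiple zeta values of weight at most `W` holds on `𝒜`.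

(b) Let `w_1, …, w_r` be patterns: indices whose entries are fixed numbers or linear forms
`b + u_1 s_1 + ⋯ + u_k s_k` in variables, such as `(3)`, `(2, 1)`, `(2, s_1)`, `(s_1, 3, s_1 + s_2)`; the fixed entries in
front of the first entry that depends on the variables have sum at most `W`. Then for large `N` and for all but
`K N ^ (k - 1)` of the tuples `s ∈ [N, κ N] ^ k` every relation `f(2 π i, ζ(w_1(s)), …, ζ(w_r(s))) = 0`, where `f` is a
polynomial of degree at most `D` with integer coefficients of absolute value at most `C ^ N`, holds on `𝒜`. Here `C` is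
arbitrary and `K` does not depend on `C`.

So Q1 is equivalent to (b) for the class of all associators and all `W`: to show that `φ_KZ` is injective it suffices to
treat almost all tuples of indices and relations of bounded degree whose height is exponential in the weight. For
`W = 2` the condition (a) says that `μ ^ 2 + 24 Z(2) = 0` for all points of `𝒜`; this is true for associators. So (b) is
unconditional for `W = 2`: for almost all `s` the polynomials of bounded degree and height at most `C ^ N` in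
`2 π i, ζ(2), ζ(s_1), ζ(2, s_1), ζ(s_1, 3), ζ(2, s_1, s_2), …` which vanish at `Φ_KZ` vanish at all associators.

The proof of (b) from (a) is in `Pool/Agent/X90/DC`: the values with a fixed prefix are polynomials in fixed values and
values without a fixed prefix; the fixed values and `2 π i` are eliminated with the stuffle product at several tuples in
general position.
-/

set_option autoImplicit false

namespace Pool.Agent.Results.MP_807c24_nt.AlmostAllRelations

/-- `trunc [s_1, ..., s_r] m` is the sum of `∏ k_i ^ (-s_i)` over `m > k_1 > ... > k_r ≥ 1` -/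
noncomputable def trunc : List ℕ → ℕ → ℝ
  | [], _ => 1
  | s :: l, m => ∑ j ∈ Finset.Ico 1 m, trunc l j / (j : ℝ) ^ s

/-- the multiple zeta value `ζ(s_1, ..., s_r)`, `s_1` belongs to the largest variable -/
noncomputable def mzv : List ℕ → ℝ
  | [] => 1
  | s :: l => ∑' k : ℕ, trunc l (k + 1) / ((k + 1 : ℕ) : ℝ) ^ s

/-- admissible indices: `(s_1, ..., s_r)` with `r ≥ 1`, `s_1 ≥ 2` and all `s_i ≥ 1` -/
def AdmissibleIndex : List ℕ → Prop
  | [] => False
  | s :: l => 2 ≤ s ∧ ∀ t ∈ l, 1 ≤ t

/-- the list of the indices in the stuffle (series) product of two indices -/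
def stuffles : List ℕ → List ℕ → List (List ℕ)
  | [], l => [l]
  | i :: k, [] => [i :: k]
  | i :: k, j :: l => (stuffles k (j :: l)).map (i :: ·) ++ (stuffles (i :: k) l).map (j :: ·) ++
      (stuffles k l).map ((i + j) :: ·)
termination_by k l => k.length + l.length

/-- `Z` has the stuffle product: `Z(k) Z(l) = ∑ Z(m)` over the indices `m` of the stuffle product
of `k` and `l`, for all admissible indices `k` and `l` -/
def HasStuffleProduct {A : Type} [CommRing A] (Z : List ℕ → A) : Prop :=
  ∀ k l : List ℕ, AdmissibleIndex k → AdmissibleIndex l →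
    Z k * Z l = ((stuffles k l).map Z).sum

/-- a pattern in the variables `s_1, …, s_k`: a nonempty list of letters `(b, u)`, different from
`(0, 0)`, the first letter is also different from `(1, 0)` -/
def Pattern {k : ℕ} (w : List (ℕ × (Fin k → ℕ))) : Prop :=
  w ≠ [] ∧ (∀ u ∈ w.head?, u.2 ≠ 0 ∨ 2 ≤ u.1) ∧ ∀ u ∈ w, u.2 ≠ 0 ∨ 1 ≤ u.1

/-- the index of a pattern: the letter `(b, u)` becomes `b + ∑ u_j s_j` -/
def index {k : ℕ} (s : Fin k → ℕ) (w : List (ℕ × (Fin k → ℕ))) : List ℕ :=
  w.map fun u => u.1 + ∑ j, u.2 j * s j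

/-- the sum of the fixed letters `(b, 0)` in front of the first letter `(b, u)` with `u ≠ 0` -/
def prefixWeight {k : ℕ} : List (ℕ × (Fin k → ℕ)) → ℕ
  | [] => 0
  | u :: w => open Classical in if u.2 = 0 then u.1 + prefixWeight w else 0

/-- a point: a commutative `ℚ`-algebra `A`, an element `μ` of `A` and a function `Z` from the indices
to `A` -/
structure Point where
  /-- the algebra -/
  A : Type
  [ring : CommRing A]
  [alg : Algebra ℚ A]
  /-- the element `μ` -/
  μ : A
  /-- the values -/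
  Z : List ℕ → A

attribute [instance] Point.ring Point.alg

/-- the coordinates `μ, Z(p_1), …, Z(p_r)` of a point -/
def Point.coord (P : Point) {r : ℕ} (p : Fin r → List ℕ) : Option (Fin r) → P.A :=
  fun o => o.elim P.μ fun i => P.Z (p i)

/-- the coordinates `2 π i, ζ(p_1), …, ζ(p_r)` of the KZ associator -/
noncomputable def kz {r : ℕ} (p : Fin r → List ℕ) : Option (Fin r) → ℂ :=
  fun o => o.elim (2 * Real.pi * Complex.I) fun i => (mzv (p i) : ℂ)

/-- all polynomial relations between `2 π i` and multiple zeta values of weight at most `W` hold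
on `𝒜` -/
def RelationsUpTo (W : ℕ) (𝒜 : Set Point) : Prop :=
  ∀ (r : ℕ) (p : Fin r → List ℕ), (∀ i, AdmissibleIndex (p i) ∧ (p i).sum ≤ W) →
    ∀ f : MvPolynomial (Option (Fin r)) ℤ, MvPolynomial.aeval (kz p) f = 0 →
      ∀ P ∈ 𝒜, MvPolynomial.aeval (P.coord p) f = 0

/-- there is an integer polynomial `f` of total degree at most `D` with coefficients of absolute
value at most `H` with `f(2 π i, ζ(w_1(s)), …, ζ(w_r(s))) = 0` and
`f(μ, Z(w_1(s)), …, Z(w_r(s))) ≠ 0` for a point of `𝒜` -/
def Exceptional {k r : ℕ} (𝒜 : Set Point) (D : ℕ) (H : ℝ) (w : Fin r → List (ℕ × (Fin k → ℕ)))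
    (s : Fin k → ℕ) : Prop :=
  ∃ f : MvPolynomial (Option (Fin r)) ℤ, f.totalDegree ≤ D ∧
    (∀ m, |((f.coeff m : ℤ) : ℝ)| ≤ H) ∧
    MvPolynomial.aeval (kz fun i => index s (w i)) f = 0 ∧
    ∃ P ∈ 𝒜, MvPolynomial.aeval (P.coord fun i => index s (w i)) f ≠ 0

/-- for all patterns with `prefixWeight` at most `W`, all `D` and `κ` there is `K` such that for all
`C` and all sufficiently large `N` at most `K N ^ (k - 1)` of the tuples `s ∈ [N, κ N] ^ k` are
exceptional for the height `C ^ N` -/
def AlmostAll (W : ℕ) (𝒜 : Set Point) : Prop :=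
  ∀ (k r D κ : ℕ) (w : Fin r → List (ℕ × (Fin k → ℕ))), (∀ i, Pattern (w i)) →
    (∀ i, prefixWeight (w i) ≤ W) → ∃ K : ℕ, ∀ C : ℝ, ∃ N0 : ℕ, ∀ N : ℕ, N0 ≤ N →
      {s : Fin k → ℕ | (∀ j, N ≤ s j ∧ s j ≤ κ * N) ∧ Exceptional 𝒜 D (C ^ N) w s}.ncard ≤
        K * N ^ (k - 1)

theorem trunc_eq : ∀ l m, trunc l m = Pool.Agent.Y760.ZG.hr l m := by
  intro l
  induction l with
  | nil => intro m; rw [trunc, Pool.Agent.Y760.ZG.hr]
  | cons s l ih =>
    intro m
    rw [trunc, Pool.Agent.Y760.ZG.hr]
    exact Finset.sum_congr rfl fun j _ => by rw [ih]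

theorem mzv_eq : ∀ l, mzv l = Pool.Agent.Y760.ZG.mz l := by
  intro l
  cases l with
  | nil => rw [mzv, Pool.Agent.Y760.ZG.mz]
  | cons s l =>
    rw [mzv, Pool.Agent.Y760.ZG.mz]
    exact tsum_congr fun k => by rw [trunc_eq]

theorem stuffles_eq : ∀ u v, stuffles u v = Pool.Agent.Y760.ZF.sti u v := by
  intro u v
  induction u, v using Pool.Agent.Y760.ZF.sti.induct with
  | case1 v => rw [stuffles, Pool.Agent.Y760.ZF.sti]
  | case2 x u => rw [stuffles, Pool.Agent.Y760.ZF.sti]
  | case3 x u y v ih1 ih2 ih3 => rw [stuffles, Pool.Agent.Y760.ZF.sti, ih1, ih2, ih3]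

theorem adm_iff : ∀ u, AdmissibleIndex u ↔ Pool.Agent.X90.DB.Ad u := by
  intro u
  cases u <;> exact Iff.rfl

theorem prefixWeight_eq {k : ℕ} : ∀ w : List (ℕ × (Fin k → ℕ)),
    Pool.Agent.X90.DC.fw w = prefixWeight w := by
  intro w
  induction w with
  | nil => rfl
  | cons u w ih =>
    rw [prefixWeight, Pool.Agent.X90.DC.fw, ih]

theorem has_stuffle {A : Type} [CommRing A] {Z : List ℕ → A} (h : HasStuffleProduct Z) :
    ∀ u v, Pool.Agent.X90.DB.Ad u → Pool.Agent.X90.DB.Ad v →
      Z u * Z v = ((Pool.Agent.Y760.ZF.sti u v).map Z).sum := by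
  intro u v hu hv
  rw [h u v ((adm_iff u).2 hu) ((adm_iff v).2 hv), stuffles_eq]

theorem aeval_cast {σ : Type} (z : σ → ℝ) (Q : MvPolynomial σ ℤ) :
    MvPolynomial.aeval (fun i => ((z i : ℝ) : ℂ)) Q = ((MvPolynomial.aeval z Q : ℝ) : ℂ) := by
  simp only [MvPolynomial.aeval_def, MvPolynomial.eval₂_eq, eq_intCast]
  push_cast
  rfl

theorem mzv_two : mzv [2] = Real.pi ^ 2 / 6 := by
  rw [mzv]
  have h1 := hasSum_zeta_two
  rw [← hasSum_nat_add_iff' 1] at h1
  simp only [Finset.range_one, Finset.sum_singleton, Nat.cast_zero, ne_eq, OfNat.ofNat_ne_zero,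
    not_false_eq_true, zero_pow, div_zero, sub_zero] at h1
  rw [← h1.tsum_eq]
  exact tsum_congr fun k => by rw [trunc]

/-- the equivalence of the index types -/
def eqv (r : ℕ) : Option (Fin r) ≃ Fin 1 ⊕ Fin r where
  toFun o := o.elim (Sum.inl 0) Sum.inr
  invFun x := x.elim (fun _ => none) some
  left_inv o := by cases o <;> rfl
  right_inv x := by
    rcases x with x | x
    · rw [Fin.fin_one_eq_zero x]
      rfl
    · rfl

theorem kz_eqv {r : ℕ} (p : Fin r → List ℕ) :
    (Sum.elim (fun _ => 2 * Real.pi * Complex.I)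
      fun i => ((Pool.Agent.Y760.ZG.mz (p i) : ℝ) : ℂ)) ∘ eqv r = kz p := by
  funext o
  cases o with
  | none => rfl
  | some i =>
    show ((Pool.Agent.Y760.ZG.mz (p i) : ℝ) : ℂ) = ((mzv (p i) : ℝ) : ℂ)
    rw [mzv_eq]

theorem fin_idx (W : ℕ) : Finite {p : List ℕ // Pool.Agent.X90.DB.Ad p ∧ p.sum ≤ W} := by
  have h : {p : List ℕ | Pool.Agent.X90.DB.Ad p ∧ p.sum ≤ W} ⊆
      (Pool.Agent.X90.DE.rs W : Set (List ℕ)) := by
    rintro p ⟨h1, h2⟩
    exact Finset.mem_coe.2 (Pool.Agent.X90.DE.mem_rs.2 ⟨h1.pos, h2⟩)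
  exact ((Pool.Agent.X90.DE.rs W).finite_toSet.subset h).to_subtype

theorem rel_of {W : ℕ} {𝒜 : Set Point} (h : RelationsUpTo W 𝒜) {P : Point} (hP : P ∈ 𝒜) :
    Pool.Agent.X90.DC.Rel W (fun _ : Fin 1 => (2 * Real.pi * Complex.I : ℂ)) (fun _ => P.μ)
      P.Z := by
  classical
  intro Q hQ
  have := fin_idx W
  obtain ⟨n, ⟨e⟩⟩ := Finite.exists_equiv_fin
    {p : List ℕ // Pool.Agent.X90.DB.Ad p ∧ p.sum ≤ W}
  let g : Fin 1 ⊕ {p : List ℕ // Pool.Agent.X90.DB.Ad p ∧ p.sum ≤ W} → Option (Fin n) :=
    fun x => x.elim (fun _ => none) fun p => some (e p)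
  have hg1 : kz (fun i => (e.symm i).1) ∘ g = Sum.elim (fun _ => 2 * Real.pi * Complex.I)
      fun p => ((Pool.Agent.Y760.ZG.mz p.1 : ℝ) : ℂ) := by
    funext x
    rcases x with x | p
    · rfl
    · show ((mzv (e.symm (e p)).1 : ℝ) : ℂ) = ((Pool.Agent.Y760.ZG.mz p.1 : ℝ) : ℂ)
      rw [e.symm_apply_apply, mzv_eq]
  have hg2 : P.coord (fun i => (e.symm i).1) ∘ g = Sum.elim (fun _ => P.μ) fun p => P.Z p.1 := by
    funext x
    rcases x with x | p
    · rfl
    · show P.Z (e.symm (e p)).1 = P.Z p.1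
      rw [e.symm_apply_apply]
  have h1 := h n (fun i => (e.symm i).1)
    (fun i => ⟨(adm_iff _).2 (e.symm i).2.1, (e.symm i).2.2⟩) (MvPolynomial.rename g Q) (by
      rw [MvPolynomial.aeval_rename, hg1]
      exact hQ) P hP
  rw [MvPolynomial.aeval_rename, hg2] at h1
  exact h1

theorem almost_of {W : ℕ} {𝒜 : Set Point} (h𝒜 : ∀ P ∈ 𝒜, HasStuffleProduct P.Z)
    (h : RelationsUpTo W 𝒜) : AlmostAll W 𝒜 := by
  classical
  intro k r D κ w hw hW
  obtain ⟨K, hK⟩ := Pool.Agent.X90.DC.gen 1 k r D w (fun i => (hw i).2) W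
    (fun i => by rw [prefixWeight_eq]; exact hW i) κ
  refine ⟨K, fun C => ?_⟩
  obtain ⟨N0, hN0⟩ := hK C (fun _ => 2 * Real.pi * Complex.I)
  refine ⟨N0 + 2, fun N hN => ?_⟩
  have hfin : {s : Fin k → ℕ | (∀ j, N ≤ s j ∧ s j ≤ κ * N) ∧
      Exceptional 𝒜 D (C ^ N) w s}.Finite := by
    refine (Fintype.piFinset fun _ : Fin k => Finset.Icc N (κ * N)).finite_toSet.subset ?_
    rintro s ⟨hs, -⟩
    rw [Finset.mem_coe, Fintype.mem_piFinset]
    exact fun j => Finset.mem_Icc.2 (hs j)
  rw [Set.ncard_eq_toFinset_card _ hfin]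
  refine hN0 N (by omega) hfin.toFinset fun s hs => ?_
  rw [Set.Finite.mem_toFinset] at hs
  obtain ⟨hs, f, hfD, hfC, hf0, P, hP, hP0⟩ := hs
  have hC0 : 0 ≤ C ^ N := (abs_nonneg _).trans (hfC 0)
  refine ⟨hs, MvPolynomial.rename (eqv r) f,
    (MvPolynomial.totalDegree_rename_le _ _).trans hfD, fun m => ?_, ?_, fun h2 => hP0 ?_⟩
  · by_cases hm : ∃ u : Option (Fin r) →₀ ℕ, u.mapDomain (eqv r) = m ∧ f.coeff u ≠ 0
    · obtain ⟨u, rfl, -⟩ := hm
      rw [MvPolynomial.coeff_rename_mapDomain _ (eqv r).injective]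
      exact hfC u
    · rw [MvPolynomial.coeff_rename_eq_zero _ _ _ fun u hu => by
        by_contra h0
        exact hm ⟨u, hu, h0⟩]
      simpa using hC0
  · rw [MvPolynomial.aeval_rename]
    have h3 := kz_eqv fun i => index s (w i)
    rw [show (fun i => ((Pool.Agent.Y760.ZG.mz (Pool.Agent.X90.DB.ix s (w i)) : ℝ) : ℂ)) =
      fun i => ((Pool.Agent.Y760.ZG.mz (index s (w i)) : ℝ) : ℂ) from rfl, h3]
    exact hf0
  · have h1 := h2 P.A (fun _ => P.μ) P.Z (rel_of h hP) (has_stuffle (h𝒜 P hP))
    rw [MvPolynomial.aeval_rename] at h1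
    have h3 : (Sum.elim (fun _ => P.μ) fun i =>
        Pool.Agent.X90.DB.ex P.Z (Pool.Agent.X90.DB.ix s (w i))) ∘ eqv r =
        P.coord fun i => index s (w i) := by
      funext o
      cases o with
      | none => rfl
      | some i =>
        refine Pool.Agent.X90.DB.ex_ne P.Z fun h0 => (hw i).1 ?_
        rw [Pool.Agent.X90.DB.ix, List.map_eq_nil_iff] at h0
        exact h0
    rw [h3] at h1
    exact h1

theorem of_almost {W : ℕ} {𝒜 : Set Point} (h : AlmostAll W 𝒜) : RelationsUpTo W 𝒜 := by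
  classical
  intro r p hp f hf P hP
  by_contra hne
  -- constant patterns
  let w : Fin r → List (ℕ × (Fin 1 → ℕ)) := fun i => (p i).map fun b => (b, 0)
  have hix : ∀ (s : Fin 1 → ℕ) i, index s (w i) = p i := by
    intro s i
    rw [index, List.map_map]
    conv_rhs => rw [← List.map_id (p i)]
    exact List.map_congr_left fun b _ => by simp
  have hpw : ∀ l : List ℕ, prefixWeight (l.map fun b => ((b, 0) : ℕ × (Fin 1 → ℕ))) = l.sum := by
    intro l
    induction l with
    | nil => rfl
    | cons b l ih =>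
      rw [List.map_cons, prefixWeight, if_pos rfl, ih, List.sum_cons]
  obtain ⟨K, hK⟩ := h 1 r f.totalDegree 2 w (fun i => by
      obtain ⟨h1, -⟩ := hp i
      rcases hpi : p i with _ | ⟨a, l⟩
      · rw [hpi] at h1
        exact h1.elim
      · rw [hpi] at h1
        refine ⟨?_, ?_, ?_⟩
        · simp only [w, hpi]
          exact List.cons_ne_nil _ _
        · intro u hu
          simp only [w, hpi, List.map_cons, List.head?_cons, Option.mem_some_iff] at hu
          rw [← hu]
          exact Or.inr h1.1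
        · intro u hu
          simp only [w, hpi, List.map_cons, List.mem_cons, List.mem_map] at hu
          rcases hu with rfl | ⟨b, hb, rfl⟩
          · exact Or.inr (le_trans (by norm_num) h1.1)
          · exact Or.inr (h1.2 b hb)) fun i => by
      rw [hpw]
      exact (hp i).2
  set C : ℝ := 1 + ∑ m ∈ f.support, |((f.coeff m : ℤ) : ℝ)| with hC
  have hC1 : 1 ≤ C := by
    have : 0 ≤ ∑ m ∈ f.support, |((f.coeff m : ℤ) : ℝ)| := Finset.sum_nonneg fun _ _ => abs_nonneg _
    linarith
  obtain ⟨N0, hN0⟩ := hK C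
  have h1 := hN0 (N0 + K + 1) (by omega)
  set N := N0 + K + 1 with hN
  have h2 : (((Finset.Icc N (2 * N)).image fun (a : ℕ) (_ : Fin 1) => a : Finset (Fin 1 → ℕ)) :
      Set (Fin 1 → ℕ)) ⊆ {s : Fin 1 → ℕ | (∀ j, N ≤ s j ∧ s j ≤ 2 * N) ∧
        Exceptional 𝒜 f.totalDegree (C ^ N) w s} := by
    intro s hs
    rw [Finset.mem_coe, Finset.mem_image] at hs
    obtain ⟨a, ha, rfl⟩ := hs
    rw [Finset.mem_Icc] at ha
    refine ⟨fun _ => ha, f, le_rfl, fun m => ?_, ?_, P, hP, ?_⟩
    · by_cases hm : m ∈ f.support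
      · have h3 := Finset.single_le_sum (f := fun m => |((f.coeff m : ℤ) : ℝ)|)
          (fun _ _ => abs_nonneg _) hm
        have h4 : C ≤ C ^ N := le_self_pow₀ hC1 (by omega)
        linarith
      · rw [MvPolynomial.notMem_support_iff.1 hm]
        simp only [Int.cast_zero, abs_zero]
        positivity
    · simp only [hix]
      exact hf
    · simp only [hix]
      exact hne
  have hfin : {s : Fin 1 → ℕ | (∀ j, N ≤ s j ∧ s j ≤ 2 * N) ∧
        Exceptional 𝒜 f.totalDegree (C ^ N) w s}.Finite := by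
    refine (Fintype.piFinset fun _ : Fin 1 => Finset.Icc N (2 * N)).finite_toSet.subset ?_
    rintro s ⟨hs, -⟩
    rw [Finset.mem_coe, Fintype.mem_piFinset]
    exact fun j => Finset.mem_Icc.2 (hs j)
  have h3 := (Set.ncard_le_ncard h2 hfin).trans h1
  rw [Set.ncard_coe_finset, Finset.card_image_of_injective _ fun a b hab => congrFun hab 0,
    Nat.card_Icc, Nat.sub_self, pow_zero, mul_one] at h3
  omega

theorem transcendental_two_pi_I : Transcendental ℚ (2 * Real.pi * Complex.I : ℂ) := by
  intro h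
  have h1 : IsAlgebraic ℚ ((2 * Real.pi * Complex.I : ℂ) ^ 2) := h.pow 2
  have h2 : (2 * Real.pi * Complex.I : ℂ) ^ 2 = ((-4 * Real.pi ^ 2 : ℝ) : ℂ) := by
    push_cast
    linear_combination (4 * (Real.pi : ℂ) ^ 2) * Complex.I_sq
  rw [h2] at h1
  have h3 : IsAlgebraic ℚ (-4 * Real.pi ^ 2 : ℝ) := by
    have h4 := (isAlgebraic_algebraMap_iff (A := ℂ) (S := ℝ) (R := ℚ)
      (algebraMap ℝ ℂ).injective (a := -4 * Real.pi ^ 2)).1
    exact h4 h1
  have h5 : IsAlgebraic ℚ (Real.pi ^ 2) := by
    have h6 : IsAlgebraic ℚ (-4 : ℝ) := by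
      have := isAlgebraic_algebraMap (R := ℚ) (A := ℝ) (-4 : ℚ)
      simpa using this
    have h7 := h3.mul h6.inv
    have h8 : -4 * Real.pi ^ 2 * (-4 : ℝ)⁻¹ = Real.pi ^ 2 := by ring
    rwa [h8] at h7
  exact Pool.Agent.H340R2.LW.transcendental_pi (IsAlgebraic.of_pow (by norm_num) h5)

theorem kz_two : (2 * Real.pi * Complex.I : ℂ) ^ 2 + 24 * ((mzv [2] : ℝ) : ℂ) = 0 := by
  rw [mzv_two]
  push_cast
  linear_combination (4 * (Real.pi : ℂ) ^ 2) * Complex.I_sq

theorem idx_two {p : List ℕ} (h1 : AdmissibleIndex p) (h2 : p.sum ≤ 2) : p = [2] := by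
  rcases p with _ | ⟨a, l⟩
  · exact h1.elim
  · obtain ⟨h4, h5⟩ := h1
    rw [List.sum_cons] at h2
    rcases l with _ | ⟨b, l⟩
    · rw [List.sum_nil] at h2
      have : a = 2 := by omega
      rw [this]
    · have h6 := h5 b List.mem_cons_self
      rw [List.sum_cons] at h2
      omega

theorem two_iff (𝒜 : Set Point) :
    (∀ P ∈ 𝒜, P.μ ^ 2 + 24 * P.Z [2] = 0) ↔ RelationsUpTo 2 𝒜 := by
  constructor
  · intro h r p hp f hf P hP
    have hp2 : p = fun _ => [2] := funext fun i => idx_two (hp i).1 (hp i).2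
    subst hp2
    let q : Option (Fin r) → Polynomial ℚ := fun o => o.elim Polynomial.X fun _ =>
      Polynomial.C (-1 / 24) * Polynomial.X ^ 2
    have hcomp : ∀ (B : Type) [CommRing B] [Algebra ℚ B] (z y : B), z ^ 2 + 24 * y = 0 →
        Polynomial.aeval z (MvPolynomial.aeval q f) =
          MvPolynomial.aeval (fun o : Option (Fin r) => o.elim z fun _ => y) f := by
      intro B _ _ z y hzy
      have hy : algebraMap ℚ B (-1 / 24) * z ^ 2 = y := by
        have h1 : z ^ 2 = -24 * y := by linear_combination hzy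
        rw [h1, ← mul_assoc]
        have h2 : algebraMap ℚ B (-1 / 24) * -24 = 1 := by
          have h3 : (-24 : B) = algebraMap ℚ B (-24) := by rw [map_neg, map_ofNat]
          rw [h3, ← map_mul]
          norm_num
        rw [h2, one_mul]
      have h4 : ∀ g : MvPolynomial (Option (Fin r)) ℤ,
          ((Polynomial.aeval z : Polynomial ℚ →ₐ[ℚ] B).toRingHom.comp
            (MvPolynomial.aeval q : MvPolynomial (Option (Fin r)) ℤ →ₐ[ℤ] _).toRingHom) g =
          (MvPolynomial.aeval (fun o : Option (Fin r) => o.elim z fun _ => y) :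
            MvPolynomial (Option (Fin r)) ℤ →ₐ[ℤ] B).toRingHom g := by
        intro g
        refine congrFun (congrArg DFunLike.coe (MvPolynomial.ringHom_ext ?_ ?_)) g
        · intro n
          simp
        · intro o
          cases o with
          | none => simp [q]
          | some i =>
            simp only [q, RingHom.comp_apply, AlgHom.toRingHom_eq_coe, RingHom.coe_coe,
              MvPolynomial.aeval_X, Option.elim_some, map_mul, Polynomial.aeval_C, map_pow,
              Polynomial.aeval_X]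
            exact hy
      exact h4 f
    have h1 := hcomp ℂ _ _ kz_two
    have h2 : MvPolynomial.aeval (kz fun _ : Fin r => [2]) f =
        MvPolynomial.aeval (fun o : Option (Fin r) => o.elim (2 * Real.pi * Complex.I)
          fun _ => ((mzv [2] : ℝ) : ℂ)) f := rfl
    rw [← h2, hf] at h1
    have h3 : MvPolynomial.aeval q f = 0 := by
      by_contra hne
      exact transcendental_two_pi_I ⟨_, hne, h1⟩
    have h4 := hcomp P.A P.μ (P.Z [2]) (h P hP)
    rw [h3, map_zero] at h4
    exact h4.symm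
  · intro h P hP
    have h1 := h 1 (fun _ => [2]) (fun _ => ⟨⟨le_rfl, by simp⟩, by simp⟩)
      (MvPolynomial.X none ^ 2 + 24 * MvPolynomial.X (some 0)) (by
        simp only [map_add, map_pow, map_mul, MvPolynomial.aeval_X, kz, Option.elim_none,
          Option.elim_some, map_ofNat]
        exact kz_two) P hP
    simpa only [map_add, map_pow, map_mul, MvPolynomial.aeval_X, Point.coord, Option.elim_none,
          Option.elim_some, map_ofNat] using h1

/-- **The relations of the KZ associator, for almost all families of words.** Let `𝒜` be a class of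
points whose `Z` have the stuffle product (for example, the class of all associators).
(1) For each `W`: all the polynomial relations between `2 π i` and multiple zeta values of weight at
most `W` hold on `𝒜` if and only if this is true, for all patterns with `prefixWeight` at most `W`
and almost all tuples, for the relations of bounded degree and height `C ^ N` between `2 π i` and
the values of the patterns. (2) For `W = 2` these conditions say that `μ ^ 2 + 24 Z(2) = 0` for all
points of `𝒜`. -/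
theorem result (𝒜 : Set Point) (h𝒜 : ∀ P ∈ 𝒜, HasStuffleProduct P.Z) :
    (∀ W, RelationsUpTo W 𝒜 ↔ AlmostAll W 𝒜) ∧
    ((∀ P ∈ 𝒜, P.μ ^ 2 + 24 * P.Z [2] = 0) ↔ AlmostAll 2 𝒜) :=
  ⟨fun _ => ⟨almost_of h𝒜, of_almost⟩, (two_iff 𝒜).trans ⟨almost_of h𝒜, of_almost⟩⟩

end Pool.Agent.Results.MP_807c24_nt.AlmostAllRelations
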