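import Pool.Agent.Results.MP_807c24_nt.AlmostAllRelations
import Pool.Agent.X174.WinInd

/-!
# MP_807c24_nt: the relations between the coefficients of the KZ associator, for ALL indices in cubes around thin sequences

The coefficient of the word `A ^ (s_1 - 1) B ⋯ A ^ (s_r - 1) B` in `Φ_KZ` is `(-1) ^ r ζ(s_1, …, s_r)` (`s_1 ≥ 2`), and
`ℚ[M]` is generated over `ℚ[μ, 1/μ]` by the coefficients of these words. So `φ_KZ` is injective if and only if every
polynomial relation between `2 π i` and the multiple zeta values holds for `μ` and the coefficients of `Φ` (with the signs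
`(-1) ^ r`), for all `(μ, Φ)` in `M(k)` and all `k`. By a theorem of Furusho these coefficients have the stuffle product.

A point is a commutative `ℚ`-algebra `A` with an element `μ` and a function `Z` from the indices to `A`. Let `𝒜` be any
class of points whose `Z` have the stuffle product, for example the class of all associators. The following are equivalent.

(a) Every polynomial relation between `2 π i` and multiple zeta values of weight at most `W` holds on `𝒜`.

(b) For every `k ≥ 1`, every sequence `v ≥ 1` of exponent of convergence at most `τ` (for `v_i = (i + 1) ^ a` this is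
`1 / a`, for `v_i = b ^ i` it is `0`) and every `ρ < 1` there is ONE set `E ⊂ ℝ^k` of Hausdorff dimension at most
`(k - 1 + τ) / (1 - ρ)` such that for each `x` outside `E` with positive coordinates, all patterns `w_1, …, w_r` (indices
whose entries are fixed numbers or linear forms `b + u_1 s_1 + ⋯ + u_k s_k` in variables) in which the fixed entries in
front of the first entry that depends on the variables have sum at most `W`, all `D` and all `C`, for all but finitely many
`i`: for ALL natural numbers `s_1, …, s_k` with `|s_j - x_j v_i| ≤ v_i ^ ρ` every relation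
`f(2 π i, ζ(w_1(s)), …, ζ(w_r(s))) = 0`, where `f` is a polynomial of degree at most `D` with integer coefficients of
absolute value at most `C ^ v_i`, holds on `𝒜`.

So Q1 is equivalent to (b) for the class of all associators and all `W`. For `W = 2` the condition (a) says that
`μ ^ 2 + 24 Z(2) = 0` for all points of `𝒜`; this is true for associators, so (b) is unconditional for `W = 2`.

The number of exceptions in `[N, κ N] ^ k` is from the result `AlmostAllRelations` of helper90.
-/

set_option autoImplicit false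

namespace Pool.Agent.Results.MP_807c24_nt.IndicesInCubes

open AlmostAllRelations (mzv AdmissibleIndex HasStuffleProduct Pattern index prefixWeight Point kz RelationsUpTo Exceptional
  AlmostAll)

/-- the exponent of convergence of the sequence `v` is at most `τ` -/
def ExpLe (v : ℕ → ℝ) (τ : ℝ) : Prop := ∀ t : ℝ, τ < t → Summable (fun n : ℕ => (v n) ^ (-t))

/-- For all `k ≥ 1`, all sequences `v ≥ 1` of exponent of convergence at most `τ` and all `ρ < 1` there is a set `E ⊂ ℝ^k`
of Hausdorff dimension at most `(k - 1 + τ) / (1 - ρ)` such that for all `x` outside `E` with positive coordinates, all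
patterns with `prefixWeight` at most `W`, all `D` and all `C`, for all but finitely many `i`, no tuple `s` with
`|s_j - x_j v_i| ≤ v_i ^ ρ` is exceptional for the degree `D` and the height `C ^ v_i`. -/
def InCubes (W : ℕ) (𝒜 : Set Point) : Prop :=
  ∀ (k : ℕ), 1 ≤ k → ∀ (v : ℕ → ℝ) (τ ρ : ℝ), (∀ i, 1 ≤ v i) → 0 ≤ τ → ExpLe v τ → ρ < 1 →
    ∃ E : Set (Fin k → ℝ), dimH E ≤ ENNReal.ofReal (((k : ℝ) - 1 + τ) / (1 - ρ)) ∧
      ∀ x : Fin k → ℝ, x ∉ E → (∀ j, 0 < x j) →
        ∀ (r : ℕ) (w : Fin r → List (ℕ × (Fin k → ℕ))), (∀ l, Pattern (w l)) →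
          (∀ l, prefixWeight (w l) ≤ W) → ∀ (D : ℕ) (C : ℝ), 1 ≤ C → ∃ i₀ : ℕ, ∀ i : ℕ, i₀ ≤ i →
            ∀ s : Fin k → ℕ, (∀ j, |(s j : ℝ) - x j * v i| ≤ (v i) ^ ρ) → ¬ Exceptional 𝒜 D (C ^ (v i)) w s

theorem cubes_of_almost {W : ℕ} {𝒜 : Set Point} (hA : AlmostAll W 𝒜) : InCubes W 𝒜 := by
  intro k hk v τ ρ hv hτ hE hρ
  have key : ∀ z : ℕ × ((r : ℕ) × (Fin r → List (ℕ × (Fin k → ℕ)))), ∃ E : Set (Fin k → ℝ),
      dimH E ≤ ENNReal.ofReal (((k : ℝ) - 1 + τ) / (1 - ρ)) ∧
      ((∀ l, Pattern (z.2.2 l)) → (∀ l, prefixWeight (z.2.2 l) ≤ W) →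
        ∀ x : Fin k → ℝ, x ∉ E → (∀ j, 0 < x j) → ∀ C : ℝ, 1 ≤ C → ∃ i₀ : ℕ, ∀ i : ℕ, i₀ ≤ i → ∀ s : Fin k → ℕ,
          (∀ j, |(s j : ℝ) - x j * v i| ≤ (v i) ^ ρ) → ¬ Exceptional 𝒜 z.1 (C ^ (v i)) z.2.2 s) := by
    rintro ⟨D, r, w⟩
    dsimp only
    by_cases hw : (∀ l, Pattern (w l)) ∧ ∀ l, prefixWeight (w l) ≤ W
    · obtain ⟨E, h1, h2⟩ := Pool.Agent.X174.winInd hk (fun H s => Exceptional 𝒜 D H w s)
        (fun H H' s hH ⟨f, hD, hc, h3⟩ => ⟨f, hD, fun l => (hc l).trans hH, h3⟩)
        (fun κ => hA k r D κ w hw.1 hw.2) hv hτ hE hρ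
      exact ⟨E, h1, fun _ _ => h2⟩
    · exact ⟨∅, by simp, fun h h' => absurd ⟨h, h'⟩ hw⟩
  choose Es h1 h2 using key
  refine ⟨⋃ z, Es z, ?_, fun x hx hx0 r w hw hW D C hC => ?_⟩
  · rw [dimH_iUnion]
    exact iSup_le h1
  · exact h2 ⟨D, r, w⟩ hw hW x (fun hm => hx (Set.mem_iUnion.2 ⟨_, hm⟩)) hx0 C hC

/-- the converse: constant patterns -/
theorem relations_of_cubes {W : ℕ} {𝒜 : Set Point} (hA : InCubes W 𝒜) : RelationsUpTo W 𝒜 := by
  classical
  intro r p hp f hf P hP
  by_contra hne
  -- constant patterns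
  let w : Fin r → List (ℕ × (Fin 1 → ℕ)) := fun i => (p i).map fun b => (b, 0)
  have hix : ∀ (s : Fin 1 → ℕ) i, index s (w i) = p i := by
    intro s i
    rw [index, List.map_map]
    conv_rhs => rw [← List.map_id (p i)]
    exact List.map_congr_left fun b _ => by simp
  have hpw : ∀ l : List ℕ, prefixWeight (l.map fun b => ((b, 0) : ℕ × (Fin 1 → ℕ))) = l.sum := by
    intro l
    induction l with
    | nil => rfl
    | cons b l ih =>
      rw [List.map_cons, prefixWeight, if_pos rfl, ih, List.sum_cons]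
  set C : ℝ := 1 + ∑ m ∈ f.support, |((f.coeff m : ℤ) : ℝ)| with hC
  have hC1 : 1 ≤ C := by
    have : 0 ≤ ∑ m ∈ f.support, |((f.coeff m : ℤ) : ℝ)| := Finset.sum_nonneg fun _ _ => abs_nonneg _
    linarith
  obtain ⟨E, hE1, hE2⟩ := hA 1 le_rfl (fun n => (2 : ℝ) ^ n) 0 0 (fun n => one_le_pow₀ (by norm_num)) le_rfl
    (Pool.Agent.Y854.GM.expLe_geom 2 (by norm_num)) one_pos
  obtain ⟨N, s, hno⟩ := Pool.Agent.X174.pick (P := fun V s => ¬ Exceptional 𝒜 f.totalDegree (C ^ V) w s) hE1
    fun x hx hx0 => hE2 x hx hx0 r w (fun i => by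
      obtain ⟨h1, -⟩ := hp i
      rcases hpi : p i with _ | ⟨a, l⟩
      · rw [hpi] at h1
        exact h1.elim
      · rw [hpi] at h1
        refine ⟨?_, ?_, ?_⟩
        · simp only [w, hpi]
          exact List.cons_ne_nil _ _
        · intro u hu
          simp only [w, hpi, List.map_cons, List.head?_cons, Option.mem_some_iff] at hu
          rw [← hu]
          exact Or.inr h1.1
        · intro u hu
          simp only [w, hpi, List.map_cons, List.mem_cons, List.mem_map] at hu
          rcases hu with rfl | ⟨b, hb, rfl⟩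
          · exact Or.inr (le_trans (by norm_num) h1.1)
          · exact Or.inr (h1.2 b hb)) (fun i => by
      rw [hpw]
      exact (hp i).2) f.totalDegree C hC1
  have hV1 : (1 : ℝ) ≤ (2 : ℝ) ^ N := one_le_pow₀ (by norm_num)
  refine hno ⟨f, le_rfl, fun m => ?_, ?_, P, hP, ?_⟩
  · have h4 : C ≤ C ^ ((2 : ℝ) ^ N) := by
      calc C = C ^ (1 : ℝ) := (Real.rpow_one C).symm
        _ ≤ C ^ ((2 : ℝ) ^ N) := Real.rpow_le_rpow_of_exponent_le hC1 hV1
    refine le_trans ?_ h4
    by_cases hm : m ∈ f.support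
    · have h3 := Finset.single_le_sum (f := fun m => |((f.coeff m : ℤ) : ℝ)|)
        (fun _ _ => abs_nonneg _) hm
      linarith
    · rw [MvPolynomial.notMem_support_iff.1 hm]
      simp only [Int.cast_zero, abs_zero]
      linarith
  · simp only [hix]
    exact hf
  · simp only [hix]
    exact hne

/-- **The relations of the KZ associator, for all indices in cubes.** Let `𝒜` be a class of points whose `Z` have the stuffle
product (for example, the class of all associators). (1) For each `W`: all the polynomial relations between `2 π i` and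
multiple zeta values of weight at most `W` hold on `𝒜` if and only if `InCubes W 𝒜` holds: for each `x` with positive
coordinates outside a small set, for ALL tuples in cubes around the points `x v_i`, this is true for the relations of bounded
degree and height `C ^ v_i` between `2 π i` and the values of patterns with `prefixWeight` at most `W`. (2) For `W = 2` these
conditions say that `μ ^ 2 + 24 Z(2) = 0` for all points of `𝒜`. The sequences `v_i = (i + 1) ^ a` and `v_i = b ^ i` have
exponent of convergence at most `1 / a` and `0`. -/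
theorem result :
    (∀ 𝒜 : Set Point, (∀ P ∈ 𝒜, HasStuffleProduct P.Z) → (∀ W, RelationsUpTo W 𝒜 ↔ InCubes W 𝒜) ∧
      ((∀ P ∈ 𝒜, P.μ ^ 2 + 24 * P.Z [2] = 0) ↔ InCubes 2 𝒜)) ∧
    (∀ a : ℝ, 0 < a → ExpLe (fun n : ℕ => ((n : ℝ) + 1) ^ a) (1 / a)) ∧
    (∀ b : ℝ, 1 < b → ExpLe (fun n : ℕ => b ^ n) 0) := by
  refine ⟨fun 𝒜 h𝒜 => ?_, fun κ hκ => Pool.Agent.Y854.GM.expLe_pow κ hκ, fun b hb => Pool.Agent.Y854.GM.expLe_geom b hb⟩
  obtain ⟨h1, h2⟩ := AlmostAllRelations.result 𝒜 h𝒜
  exact ⟨fun W => ⟨fun h => cubes_of_almost ((h1 W).1 h), relations_of_cubes⟩,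
    fun h => cubes_of_almost (h2.1 h), fun h => h2.2 ((h1 2).1 (relations_of_cubes h))⟩

end Pool.Agent.Results.MP_807c24_nt.IndicesInCubes
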