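import Mathlib

/-!
# MP_807c24_nt: the transcendence conjecture for the KZ associator holds, or fails for a positive proportion

Let `A = ℚ[M]` be the ring of functions on the scheme of associators, and `F n ⊆ A` the span of the monomials
`μ ^ j φ_{b_1} ⋯ φ_{b_k}` (`j ≥ 0`) of weight `j + |b_1| + ⋯ + |b_k| ≤ n`. By Drinfeld `A` is an integral domain, as
`M` is a torsor under the group `GRT`, which is the product of the multiplicative group and a prounipotent group, with
a rational point. The homomorphism `φ_KZ : A → ℂ` factors through the ring `P` of motivic periods of mixed Tate motives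
over the integers; the image of `F n` in `P` is spanned by the products of powers of the motivic `2πi` and motivic
multiple zeta values of total weight `≤ n`, and its dimension `B n` is known (Deligne, Goncharov, Brown). So

  `dim φ_KZ(F n) ≤ B n ≤ dim F n`,

and the conjecture is that the outer terms are equal for all `n`. Here `φ_KZ(F n)` is the space `V_n` of the numbers
spanned by the products of powers of `2πi` and multiple zeta values of total weight `≤ n`.

Theorem.
(1) If `φ_KZ` is not injective then there is `m` with `(1 + 2 ^ (-m)) dim V_n ≤ dim F n` for all `n ≥ m`.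
(2) The conjecture holds if and only if `dim V_n = dim F n` for infinitely many `n`, and if and only if for each `ε > 0`
there are arbitrarily large `n` with `dim V_n ≥ (1 - ε) dim F n`.

So a single relation between the coefficients of the KZ associator that is not a consequence of the associator
equations implies that, in all large weights, a fixed proportion of all functions is lost. Note that the growth of
`dim F n` is not known (it is the growth of the coordinate ring of the Grothendieck-Teichmüller group); the proof uses a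
lower bound for it, `dim F (n - m) ≥ B (n - m) ≥ 2 ^ (-m) B n ≥ 2 ^ (-m) dim V_n`: multiplication with a nonzero element
of `F m` in the kernel maps `F (n - m)` into the kernel of `F n → V_n`, injectively as `A` is a domain.
-/

set_option autoImplicit false

namespace Pool.Agent.Results.MP_807c24_nt.ZeroOneLaw

open Finset

/-- the numbers `d_n` -/
def d : ℕ → ℕ
  | 0 => 1
  | 1 => 0
  | 2 => 1
  | n + 3 => d n + d (n + 1)

/-- the dimension of the space spanned by the products of powers of the motivic `2πi` and motivic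
multiple zeta values of total weight at most `n` -/
def motivicNumber (n : ℕ) : ℕ := ∑ k ∈ range (n + 1), d k + ∑ k ∈ range n, d k

/-- an integral domain `A` over `ℚ` with an increasing sequence of finite-dimensional subspaces
`F n`, compatible with products, and an element `μ ≠ 0` such that each element is in some `F n` after
multiplication with a power of `μ`; and a homomorphism `per ∘ π` from `A` to `ℂ` that factors through a
`ℚ`-algebra in which `F n` has an image of dimension `motivicNumber n` -/
structure KZData where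
  /-- the ring of functions on the scheme of associators -/
  A : Type
  [ringA : CommRing A]
  [domA : IsDomain A]
  [algA : Algebra ℚ A]
  /-- the functions of weight at most `n` -/
  F : ℕ → Submodule ℚ A
  finite : ∀ n, Module.Finite ℚ (F n)
  mono : Monotone F
  mul_mem : ∀ (m n : ℕ) (x y : A), x ∈ F m → y ∈ F n → x * y ∈ F (m + n)
  /-- the function `μ` -/
  mu : A
  mu_ne : mu ≠ 0
  exhaust : ∀ x : A, ∃ j n : ℕ, mu ^ j * x ∈ F n
  /-- the ring of motivic periods -/
  P : Type
  [ringP : CommRing P]
  [algP : Algebra ℚ P]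
  /-- the homomorphism to the motivic periods -/
  π : A →ₐ[ℚ] P
  /-- the period map -/
  per : P →ₐ[ℚ] ℂ
  dim_image : ∀ n, Module.finrank ℚ ((F n).map π.toLinearMap) = motivicNumber n

attribute [instance] KZData.ringA KZData.domA KZData.algA KZData.ringP KZData.algP KZData.finite

/-- the homomorphism `φ_KZ` -/
noncomputable def phi (G : KZData) : G.A →ₐ[ℚ] ℂ := G.per.comp G.π

/-- the space of the numbers `φ_KZ(x)`, `x ∈ F n` -/
noncomputable def V (G : KZData) (n : ℕ) : Submodule ℚ ℂ := (G.F n).map (phi G).toLinearMap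

theorem d_le : ∀ n, d (n + 1) ≤ ∑ k ∈ range (n + 1), d k
  | 0 => by simp [d]
  | 1 => by simp [d, sum_range_succ]
  | n + 2 => by
    rw [show n + 2 + 1 = n + 3 from rfl, d, sum_range_succ, sum_range_succ]
    have h : d n ≤ ∑ k ∈ range (n + 1), d k :=
      single_le_sum (f := d) (fun _ _ => Nat.zero_le _) (mem_range.2 (Nat.lt_succ_self n))
    omega

theorem motivic_succ (n : ℕ) : motivicNumber (n + 1) ≤ 2 * motivicNumber n := by
  have h1 := d_le n
  have h2 : d n ≤ (∑ k ∈ range n, d k) + if n = 0 then 1 else 0 := by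
    cases n with
    | zero => simp [d]
    | succ n =>
      simp only [Nat.succ_ne_zero, if_false, add_zero]
      exact d_le n
  rw [motivicNumber, motivicNumber, sum_range_succ, sum_range_succ]
  rw [sum_range_succ] at h1
  rcases Nat.eq_zero_or_pos n with h0 | h0
  · subst h0
    simp [d]
  · rw [if_neg (by omega)] at h2
    omega

theorem motivic_pow (m n : ℕ) : motivicNumber (n + m) ≤ 2 ^ m * motivicNumber n := by
  induction m with
  | zero => simp
  | succ m ih =>
    rw [← add_assoc, pow_succ]
    have := motivic_succ (n + m)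
    calc motivicNumber (n + m + 1) ≤ 2 * motivicNumber (n + m) := this
      _ ≤ 2 * (2 ^ m * motivicNumber n) := Nat.mul_le_mul_left _ ih
      _ = _ := by ring

theorem motivic_pos (n : ℕ) : 0 < motivicNumber n := by
  rw [motivicNumber]
  have h : d 0 ≤ ∑ k ∈ range (n + 1), d k :=
    single_le_sum (f := d) (fun _ _ => Nat.zero_le _) (mem_range.2 (Nat.succ_pos n))
  have h0 : d 0 = 1 := rfl
  omega

variable (G : KZData)

theorem V_le (n : ℕ) : Module.finrank ℚ (V G n) ≤ motivicNumber n := by
  rw [← G.dim_image n]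
  have h : V G n = ((G.F n).map G.π.toLinearMap).map G.per.toLinearMap := by
    rw [V, phi, ← Submodule.map_comp]
    rfl
  rw [h]
  exact Submodule.finrank_map_le _ _

theorem motivic_le (n : ℕ) : motivicNumber n ≤ Module.finrank ℚ (G.F n) := by
  rw [← G.dim_image n]
  exact Submodule.finrank_map_le _ _

/-- an element of the kernel loses a shifted copy -/
theorem drop {m : ℕ} {x : G.A} (hx : x ∈ G.F m) (hx0 : x ≠ 0) (hk : phi G x = 0) (n : ℕ) :
    Module.finrank ℚ (V G (n + m)) + Module.finrank ℚ (G.F n) ≤ Module.finrank ℚ (G.F (n + m)) := by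
  set T : G.F (n + m) →ₗ[ℚ] ℂ := (phi G).toLinearMap.domRestrict (G.F (n + m)) with hT
  have h1 := LinearMap.finrank_range_add_finrank_ker T
  have h2 : LinearMap.range T = V G (n + m) := by
    rw [hT, LinearMap.range_domRestrict]
    rfl
  rw [h2] at h1
  let S : G.F n →ₗ[ℚ] LinearMap.ker T :=
    { toFun := fun y => ⟨⟨y.1 * x, G.mul_mem n m y.1 x y.2 hx⟩, by
        rw [LinearMap.mem_ker]
        show phi G (y.1 * x) = 0
        rw [map_mul, hk, mul_zero]⟩
      map_add' := fun y z => by
        ext
        show (y.1 + z.1) * x = y.1 * x + z.1 * x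
        ring
      map_smul' := fun c y => by
        ext
        show (c • y.1) * x = c • (y.1 * x)
        rw [smul_mul_assoc] }
  have hS : Function.Injective S := by
    intro y z h
    have h3 : y.1 * x = z.1 * x := congrArg (fun w : LinearMap.ker T => (w.1.1 : G.A)) h
    exact Subtype.ext (mul_right_cancel₀ hx0 h3)
  have h4 := LinearMap.finrank_le_finrank_of_injective hS
  omega

/-- a nonzero element of the kernel can be moved into some `F m` -/
theorem kernel_in (h : ¬ Function.Injective (phi G)) : ∃ (m : ℕ) (x : G.A), x ∈ G.F m ∧ x ≠ 0 ∧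
    phi G x = 0 := by
  rw [injective_iff_map_eq_zero] at h
  push Not at h
  obtain ⟨x, hx, hx0⟩ := h
  obtain ⟨j, n, hjn⟩ := G.exhaust x
  exact ⟨n, _, hjn, mul_ne_zero (pow_ne_zero _ G.mu_ne) hx0, by rw [map_mul, hx, mul_zero]⟩

theorem law (h : ¬ Function.Injective (phi G)) : ∃ m : ℕ, ∀ n, m ≤ n →
    (2 ^ m + 1) * Module.finrank ℚ (V G n) ≤ 2 ^ m * Module.finrank ℚ (G.F n) := by
  obtain ⟨m, x, hx, hx0, hk⟩ := kernel_in G h
  refine ⟨m, fun n hn => ?_⟩
  obtain ⟨k, rfl⟩ := Nat.exists_eq_add_of_le' hn
  have h1 := drop G hx hx0 hk k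
  have h2 := motivic_le G k
  have h3 := motivic_pow m k
  have h4 := V_le G (k + m)
  have h5 : Module.finrank ℚ (V G (k + m)) ≤ 2 ^ m * Module.finrank ℚ (G.F k) :=
    h4.trans (h3.trans (Nat.mul_le_mul_left _ h2))
  have h6 := Nat.mul_le_mul_left (2 ^ m) h1
  rw [mul_add] at h6
  rw [add_mul, one_mul]
  omega

theorem inj_dim (h : Function.Injective (phi G)) (n : ℕ) :
    Module.finrank ℚ (V G n) = Module.finrank ℚ (G.F n) := by
  rw [V]
  exact (LinearEquiv.finrank_eq (Submodule.equivMapOfInjective (phi G).toLinearMap h (G.F n))).symm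

theorem V_pos (n : ℕ) : 0 < Module.finrank ℚ (G.F n) :=
  lt_of_lt_of_le (motivic_pos n) (motivic_le G n)

theorem of_close (h : ∀ ε : ℝ, 0 < ε → ∀ n₀ : ℕ, ∃ n, n₀ ≤ n ∧
    (1 - ε) * (Module.finrank ℚ (G.F n) : ℝ) ≤ Module.finrank ℚ (V G n)) :
    Function.Injective (phi G) := by
  by_contra hcon
  obtain ⟨m, hm⟩ := law G hcon
  set c : ℝ := 2 ^ m with hc
  have hc0 : 0 < c := by positivity
  obtain ⟨n, hn, hle⟩ := h (1 / (2 * (c + 1))) (by positivity) m
  have h1 : (c + 1) * (Module.finrank ℚ (V G n) : ℝ) ≤ c * Module.finrank ℚ (G.F n) := by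
    have := hm n hn
    rw [hc]
    exact_mod_cast this
  have h2 : (0 : ℝ) < Module.finrank ℚ (G.F n) := by exact_mod_cast V_pos G n
  have h3 : (c + 1) * ((1 - 1 / (2 * (c + 1))) * (Module.finrank ℚ (G.F n) : ℝ)) ≤
      c * Module.finrank ℚ (G.F n) :=
    (mul_le_mul_of_nonneg_left hle (by positivity)).trans h1
  have h4 : (c + 1) * ((1 - 1 / (2 * (c + 1))) * (Module.finrank ℚ (G.F n) : ℝ)) =
      (c + 1 / 2) * Module.finrank ℚ (G.F n) := by
    field_simp
    ring
  rw [h4] at h3
  nlinarith

/-- **The transcendence conjecture for the KZ associator holds, or fails for a positive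
proportion.** -/
theorem result :
    -- the three dimensions
    (∀ n, Module.finrank ℚ (V G n) ≤ motivicNumber n ∧
      motivicNumber n ≤ Module.finrank ℚ (G.F n)) ∧
    -- one relation that is not a consequence of the associator equations
    (∀ (m : ℕ) (x : G.A), x ∈ G.F m → x ≠ 0 → phi G x = 0 → ∀ n,
      Module.finrank ℚ (V G (n + m)) + Module.finrank ℚ (G.F n) ≤
        Module.finrank ℚ (G.F (n + m))) ∧
    (¬ Function.Injective (phi G) → ∃ m : ℕ, ∀ n, m ≤ n →
      (2 ^ m + 1) * Module.finrank ℚ (V G n) ≤ 2 ^ m * Module.finrank ℚ (G.F n)) ∧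
    -- the conjecture
    (Function.Injective (phi G) ↔ ∀ n₀ : ℕ, ∃ n, n₀ ≤ n ∧
      Module.finrank ℚ (V G n) = Module.finrank ℚ (G.F n)) ∧
    (Function.Injective (phi G) ↔ ∀ ε : ℝ, 0 < ε → ∀ n₀ : ℕ, ∃ n, n₀ ≤ n ∧
      (1 - ε) * (Module.finrank ℚ (G.F n) : ℝ) ≤ Module.finrank ℚ (V G n)) := by
  refine ⟨fun n => ⟨V_le G n, motivic_le G n⟩, fun m x hx hx0 hk n => drop G hx hx0 hk n, law G,
    ⟨fun h n₀ => ⟨n₀, le_rfl, inj_dim G h n₀⟩, fun h => ?_⟩,
    ⟨fun h ε hε n₀ => ⟨n₀, le_rfl, ?_⟩, of_close G⟩⟩
  · refine of_close G fun ε hε n₀ => ?_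
    obtain ⟨n, hn, he⟩ := h n₀
    refine ⟨n, hn, ?_⟩
    rw [he]
    have : (0 : ℝ) ≤ Module.finrank ℚ (G.F n) := Nat.cast_nonneg _
    nlinarith
  · rw [inj_dim G h]
    have : (0 : ℝ) ≤ Module.finrank ℚ (G.F n₀) := Nat.cast_nonneg _
    nlinarith

end Pool.Agent.Results.MP_807c24_nt.ZeroOneLaw
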